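import Pool.Agent.Helper73.Dn.Goals

/-!
# DUALA (MP_70814c_an)
-/

set_option autoImplicit false

open Pool.Agent.Helper17.Rg Pool.Agent.Helper73.Dn

namespace Pool.Agent.Helper84.Dn

theorem dualA (h : Dual) : DualA := by
  classical
  intro ι _ _ g B δ hδ
  have key : ∀ A : Finset ι, ∃ t0 : ℝ, A.Nonempty → ∀ t : ℝ, t0 ≤ t →
      ∀ (l : ι → ℕ) (U : ι → ℤ) (q : ι → ℝ),
      (∀ c ∈ A, (l c : ℝ) ≤ B * t ∧ |q c| ≤ B * t) →
      (∀ c ∈ A, ∀ b, g c = some b → (gb b : ℤ) ^ l c ∣ U c) →
      (∀ c ∈ A, |(U c : ℝ)| ≤ Real.exp (q c)) →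
      ∑ c ∈ A, U c = 0 →
      (∀ (I : Finset ι) (c0 : ι), I ⊆ A → c0 ∈ A → c0 ∉ I → I.Nonempty → (∀ c ∈ I, q c ≤ q c0) →
        ∃ c1 ∈ I, ∑ c ∈ I, (q c - l c * lg (g c)) +
          (if g c1 = g c0 then l c1 * lg (g c1) else 0) - l c0 * lg (g c0) ≤ -δ * t) →
      ∃ c ∈ A, U c = 0 := by
    intro A
    by_cases hA : A.Nonempty
    · have hcard : 0 < A.card := hA.card_pos
      let e : Fin A.card ≃ A := A.equivFin.symm
      have hlam : (fun _ : Fin A.card => (1 : ℚ)) ≠ 0 := by
        intro h0
        have := congrFun h0 ⟨0, hcard⟩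
        simp at this
      obtain ⟨t0, ht0⟩ := h A.card (fun j => g (e j)) (fun _ => 1) B δ hlam hδ
      refine ⟨t0, fun _ t ht l U q h1 h2 h3 h4 h5 => ?_⟩
      have hsum : ∑ c : Fin A.card, (fun _ : Fin A.card => (1 : ℚ)) c * ((U (e c) : ℤ) : ℚ) = 0 := by
        have hs : ∑ c : Fin A.card, U (e c) = 0 := by
          rw [← h4, ← Finset.sum_coe_sort A U]
          exact Equiv.sum_comp e (fun c : A => U c)
        have hs' : ((∑ c : Fin A.card, U (e c) : ℤ) : ℚ) = 0 := by rw [hs]; simp
        rw [Int.cast_sum] at hs'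
        simpa using hs'
      have emb_inj : Function.Injective (fun j : Fin A.card => ((e j : A) : ι)) :=
        Subtype.val_injective.comp e.injective
      obtain ⟨c, -, hc⟩ := ht0 t ht (fun j => l (e j)) (fun j => U (e j)) (fun j => q (e j))
        (fun c => h1 _ (e c).2) (fun c b hb => h2 _ (e c).2 b hb) (fun c => h3 _ (e c).2) hsum
        (by
          intro I c0 hc0 hI hq
          let f : Fin A.card ↪ ι := ⟨fun j => ((e j : A) : ι), emb_inj⟩
          have hf : ∀ j, f j = ((e j : A) : ι) := fun _ => rfl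
          obtain ⟨c1, hc1, hh⟩ := h5 (I.map f) (f c0) (by
              intro x hx
              rw [Finset.mem_map] at hx
              obtain ⟨j, -, rfl⟩ := hx
              exact (e j).2) (e c0).2 (by
              rw [Finset.mem_map']
              exact hc0) (by simpa using hI) (by
              intro x hx
              rw [Finset.mem_map] at hx
              obtain ⟨j, hj, rfl⟩ := hx
              exact hq j hj)
          rw [Finset.mem_map] at hc1
          obtain ⟨j, hj, rfl⟩ := hc1
          rw [Finset.sum_map] at hh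
          exact ⟨j, hj, hh⟩)
      exact ⟨e c, (e c).2, hc⟩
    · exact ⟨0, fun h => absurd h hA⟩
  choose T hT using key
  refine ⟨∑ A : Finset ι, |T A|, ?_⟩
  intro t ht
  have hT' : ∀ A : Finset ι, T A ≤ t := by
    intro A
    refine le_trans (le_trans (le_abs_self _) ?_) ht
    exact Finset.single_le_sum (f := fun A : Finset ι => |T A|) (fun _ _ => abs_nonneg _)
      (Finset.mem_univ A)
  intro A
  induction A using Finset.strongInduction with
  | H A ih =>
    intro l U q h1 h2 h3 h4 h5
    by_cases hA : A.Nonempty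
    · obtain ⟨c, hc, hU⟩ := hT A hA t (hT' A) l U q h1 h2 h3 h4 h5
      have hsub : A.erase c ⊆ A := Finset.erase_subset _ _
      have := ih (A.erase c) (Finset.erase_ssubset hc) l U q
        (fun c hc => h1 c (hsub hc)) (fun c hc => h2 c (hsub hc)) (fun c hc => h3 c (hsub hc))
        (by
          have := Finset.add_sum_erase A U hc
          rw [hU, zero_add] at this
          rw [this, h4])
        (fun I c0 hI hc0 => h5 I c0 (hI.trans hsub) (hsub hc0))
      intro x hx
      by_cases hxc : x = c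
      · rw [hxc]; exact hU
      · exact this x (Finset.mem_erase.mpr ⟨hxc, hx⟩)
    · rw [Finset.not_nonempty_iff_eq_empty] at hA
      subst hA
      simp

end Pool.Agent.Helper84.Dn
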